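import Pool.Agent.Q20.AS.MainD

set_option autoImplicit false

/-!
# Many multiples of one residue class without small primes, every modulus

`p(d, a)` is the least prime `≡ a (mod d)`.

(1) Let `C`, `δ > 0`, `K` be given. For every large modulus `d`, every `1 ≤ e ≤ d ^ K`, EVERY set `S` of pairs `(u, k)` of a
positive integer `u ≤ d ^ K` all of whose prime factors divide `e` and an integer `|k| ≤ d ^ K`, with
`|S| ≤ C (φ(d e) / (d e)) log d`, and every `y ≤ d ^ K` there is an `a` prime to `d e` in `[y, y + d ^ δ]` such that all the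
numbers `u a + k d`, `(u, k) ∈ S`, have a prime factor `p ≤ d ^ δ` with `p ∤ d e` and `p < |u a + k d|`.

(2) So for every set `U` of positive integers `u`, `u (d ^ δ + 1) < d`, all of whose prime factors divide `e` and every `T` with
`|U| (T + 1) ≤ C (φ(d e) / (d e)) log d` there is ONE `a ≤ d ^ δ + 1` prime to `d e` such that all primes `≡ u a (mod d)` are
larger than `T d`, for ALL `u ∈ U`. For example `p(d, a), p(d, 2 a), p(d, 4 a), …, p(d, 2 ^ J a) > T d` for odd `d`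
(`e = 2`, `J` up to a constant times `(φ(d) / d) log d`).

Proof: `Pool.Agent.Q20.AS.formsD`, after the square weights of the project AC of the starting repository (helper410 and the
helpers of that project).
-/

namespace Pool.Agent.Results.MP_458f0b_nt.MultiplesOfOneClass

open Filter

theorem pairs (C δ : ℝ) (K : ℕ) (hδ : 0 < δ) : ∀ᶠ d : ℕ in atTop, ∀ e : ℕ, 1 ≤ e → e ≤ d ^ K →
    ∀ S : Finset (ℕ × ℤ),
    (∀ s ∈ S, 1 ≤ s.1 ∧ s.1 ≤ d ^ K ∧ (∀ p : ℕ, p.Prime → p ∣ s.1 → p ∣ e) ∧ |s.2| ≤ (d : ℤ) ^ K) →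
    (S.card : ℝ) ≤ C * (((d * e).totient : ℝ) / ((d * e : ℕ) : ℝ)) * Real.log d →
    ∀ y : ℕ, y ≤ d ^ K → ∃ a : ℕ, y ≤ a ∧ (a : ℝ) ≤ y + (d : ℝ) ^ δ ∧ Nat.Coprime a (d * e) ∧
      ∀ s ∈ S, ∃ p : ℕ, p.Prime ∧ ¬ p ∣ d * e ∧ (p : ℝ) ≤ (d : ℝ) ^ δ ∧
        (p : ℤ) ∣ s.1 * a + s.2 * d ∧ (p : ℤ) < |(s.1 : ℤ) * a + s.2 * d| := by
  classical
  obtain ⟨X₀, hX₀⟩ := Pool.Agent.Q20.AS.formsD C δ (K + 1) hδ
  filter_upwards [eventually_ge_atTop X₀, eventually_ge_atTop 2] with d hm hm2 e he1 heK J hJ hJc y hy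
  have hm0 : (0 : ℝ) < d := by exact_mod_cast (by omega : 0 < d)
  have hde : 1 ≤ d * e := Nat.mul_pos (by omega) he1
  have hde0 : (0 : ℝ) < ((d * e : ℕ) : ℝ) := by exact_mod_cast hde
  have hdeK : d * e ≤ d ^ (K + 1) := by
    rw [pow_succ, mul_comm]
    exact Nat.mul_le_mul_right d heK
  have hA : ∀ l ∈ J.image (fun s : ℕ × ℤ => (s.1, s.2 * (d : ℤ))), 1 ≤ l.1 ∧
      (∀ p : ℕ, p.Prime → p ∣ l.1 → p ∣ d * e) ∧ l.1 ≤ d ^ (K + 1) ∧ |l.2| ≤ (d : ℤ) ^ (K + 1) := by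
    intro l hl
    rw [Finset.mem_image] at hl
    obtain ⟨j, hj, rfl⟩ := hl
    obtain ⟨h1, h2, h3, h4⟩ := hJ j hj
    refine ⟨h1, fun p hp hd => (h3 p hp hd).mul_left d,
      h2.trans (Nat.pow_le_pow_right (by omega) (by omega)), ?_⟩
    simp only
    rw [abs_mul, pow_succ]
    refine mul_le_mul h4 ?_ (abs_nonneg _) (by positivity)
    exact (abs_of_nonneg (by positivity)).le
  have hB : ((J.image (fun s : ℕ × ℤ => (s.1, s.2 * (d : ℤ)))).card : ℝ) * ((d * e : ℕ) : ℝ) ≤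
      C * (d * e).totient * Real.log d := by
    have h6 : ((J.image (fun s : ℕ × ℤ => (s.1, s.2 * (d : ℤ)))).card : ℝ) ≤ J.card := by
      exact_mod_cast Finset.card_image_le
    calc ((J.image (fun s : ℕ × ℤ => (s.1, s.2 * (d : ℤ)))).card : ℝ) * ((d * e : ℕ) : ℝ) ≤
          J.card * ((d * e : ℕ) : ℝ) := mul_le_mul_of_nonneg_right h6 hde0.le
      _ ≤ (C * (((d * e).totient : ℝ) / ((d * e : ℕ) : ℝ)) * Real.log d) * ((d * e : ℕ) : ℝ) :=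
          mul_le_mul_of_nonneg_right hJc hde0.le
      _ = C * (d * e).totient * Real.log d := by field_simp
  obtain ⟨c, h1, h2, h3, -, h5⟩ := hX₀ d hm (d * e) hde hdeK
    (J.image (fun s : ℕ × ℤ => (s.1, s.2 * (d : ℤ)))) hA hB y
    (hy.trans (Nat.pow_le_pow_right (by omega) (by omega))) ∅ (by simp; positivity)
  refine ⟨c, h1, h2, h3, fun j hj => ?_⟩
  obtain ⟨p, a1, a2, a3, a4, a5⟩ := h5 _ (Finset.mem_image_of_mem _ hj)
  exact ⟨p, a1, a2, a3, a4, a5⟩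

theorem classes (C δ : ℝ) (K : ℕ) (hδ : 0 < δ) : ∀ᶠ d : ℕ in atTop, ∀ e : ℕ, 1 ≤ e → e ≤ d ^ K →
    ∀ (U : Finset ℕ) (T : ℕ),
    (∀ u ∈ U, 1 ≤ u ∧ (u : ℝ) * ((d : ℝ) ^ δ + 1) < d ∧ ∀ p : ℕ, p.Prime → p ∣ u → p ∣ e) →
    (U.card : ℝ) * (T + 1) ≤ C * (((d * e).totient : ℝ) / ((d * e : ℕ) : ℝ)) * Real.log d →
    ∃ a : ℕ, 1 ≤ a ∧ (a : ℝ) ≤ 1 + (d : ℝ) ^ δ ∧ Nat.Coprime a (d * e) ∧
      ∀ u ∈ U, ∀ p : ℕ, p.Prime → p ≡ u * a [MOD d] → T * d < p := by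
  classical
  filter_upwards [pairs C δ (K + (Nat.ceil (max C 0) + 2)) hδ, eventually_ge_atTop 2]
    with d hD hD2 e he1 heK U T hU hT
  have hD0 : (0 : ℝ) < d := by exact_mod_cast (by omega : 0 < d)
  have heK2 : e ≤ d ^ (K + (Nat.ceil (max C 0) + 2)) :=
    heK.trans (Nat.pow_le_pow_right (by omega) (by omega))
  rcases U.eq_empty_or_nonempty with hM0 | hM0
  · obtain ⟨b, h1, h2, h3, -⟩ := hD e he1 heK2 ∅ (by simp) (by
      subst hM0
      simpa using hT) 1 (Nat.one_le_pow _ _ (by omega))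
    exact ⟨b, h1, by simpa using h2, h3, by simp [hM0]⟩
  have hTle : (T : ℤ) ≤ (d : ℤ) ^ (K + (Nat.ceil (max C 0) + 2)) := by
    have h1 : (1 : ℝ) ≤ U.card := by exact_mod_cast hM0.card_pos
    have h2 : (T : ℝ) + 1 ≤ C * (((d * e).totient : ℝ) / ((d * e : ℕ) : ℝ)) * Real.log d := by
      refine le_trans ?_ hT
      exact le_mul_of_one_le_left (by positivity) h1
    have h3 : ((d * e).totient : ℝ) / ((d * e : ℕ) : ℝ) ≤ 1 := by
      rw [div_le_one (by exact_mod_cast Nat.mul_pos (by omega) he1)]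
      exact_mod_cast Nat.totient_le (d * e)
    have h4 : Real.log d ≤ d := (Real.log_le_sub_one_of_pos hD0).trans (by linarith)
    have h5 : 0 ≤ Real.log (d : ℝ) := Real.log_natCast_nonneg d
    have h6 : C * (((d * e).totient : ℝ) / ((d * e : ℕ) : ℝ)) * Real.log d ≤
        (Nat.ceil (max C 0) : ℝ) * 1 * d := by
      have h7 : C ≤ (Nat.ceil (max C 0) : ℝ) := (le_max_left C 0).trans (Nat.le_ceil _)
      calc C * (((d * e).totient : ℝ) / ((d * e : ℕ) : ℝ)) * Real.log d ≤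
            (Nat.ceil (max C 0) : ℝ) * (((d * e).totient : ℝ) / ((d * e : ℕ) : ℝ)) * Real.log d := by
              gcongr
        _ ≤ (Nat.ceil (max C 0) : ℝ) * 1 * d := by gcongr
    have h8 : (Nat.ceil (max C 0) : ℝ) ≤ (d : ℝ) ^ (Nat.ceil (max C 0)) := by
      have h9 : Nat.ceil (max C 0) < d ^ (Nat.ceil (max C 0)) := Nat.lt_pow_self (by omega)
      exact_mod_cast h9.le
    have h10 : (T : ℝ) ≤ (d : ℝ) ^ (K + (Nat.ceil (max C 0) + 2)) := by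
      calc (T : ℝ) ≤ (Nat.ceil (max C 0) : ℝ) * 1 * d := by linarith
        _ ≤ (d : ℝ) ^ (Nat.ceil (max C 0)) * 1 * d := by gcongr
        _ = (d : ℝ) ^ (Nat.ceil (max C 0) + 1) := by ring
        _ ≤ (d : ℝ) ^ (K + (Nat.ceil (max C 0) + 2)) :=
            pow_le_pow_right₀ (by exact_mod_cast (by omega : 1 ≤ d)) (by omega)
    exact_mod_cast h10
  have hud : ∀ u ∈ U, u ≤ d := by
    intro u hu
    have h1 := (hU u hu).2.1
    have h2 : (0 : ℝ) ≤ (d : ℝ) ^ δ := by positivity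
    have h3 : (0 : ℝ) ≤ (u : ℝ) := Nat.cast_nonneg u
    have h4 : (u : ℝ) ≤ d := by nlinarith
    exact_mod_cast h4
  have hA : ∀ s ∈ (U ×ˢ Finset.range (T + 1)).image (fun s : ℕ × ℕ => (s.1, (s.2 : ℤ))),
      1 ≤ s.1 ∧ s.1 ≤ d ^ (K + (Nat.ceil (max C 0) + 2)) ∧ (∀ p : ℕ, p.Prime → p ∣ s.1 → p ∣ e) ∧
      |s.2| ≤ (d : ℤ) ^ (K + (Nat.ceil (max C 0) + 2)) := by
    intro s hs
    rw [Finset.mem_image] at hs
    obtain ⟨t, ht, rfl⟩ := hs
    rw [Finset.mem_product, Finset.mem_range] at ht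
    obtain ⟨h1, -, h3⟩ := hU _ ht.1
    refine ⟨h1, (hud _ ht.1).trans (Nat.le_self_pow (by omega) d), h3, ?_⟩
    simp only
    rw [abs_of_nonneg (by positivity)]
    have : (t.2 : ℤ) ≤ T := by exact_mod_cast (by omega : t.2 ≤ T)
    exact this.trans hTle
  have hB : (((U ×ˢ Finset.range (T + 1)).image (fun s : ℕ × ℕ => (s.1, (s.2 : ℤ)))).card : ℝ) ≤
      C * (((d * e).totient : ℝ) / ((d * e : ℕ) : ℝ)) * Real.log d := by
    refine le_trans ?_ hT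
    have h5 : ((U ×ˢ Finset.range (T + 1)).image (fun s : ℕ × ℕ => (s.1, (s.2 : ℤ)))).card ≤
        U.card * (T + 1) := by
      refine Finset.card_image_le.trans ?_
      rw [Finset.card_product, Finset.card_range]
    exact_mod_cast h5
  obtain ⟨a, h1, h2, h3, h4⟩ := hD e he1 heK2 _ hA hB 1 (Nat.one_le_pow _ _ (by omega))
  push_cast at h2
  refine ⟨a, h1, h2, h3, fun u hu p hp hmod => ?_⟩
  by_contra hcon
  push Not at hcon
  have hua : u * a < d := by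
    have h5 := (hU u hu).2.1
    have h6 : ((u * a : ℕ) : ℝ) < d := by
      push_cast
      have h7 : (u : ℝ) * a ≤ u * (1 + (d : ℝ) ^ δ) := mul_le_mul_of_nonneg_left h2 (Nat.cast_nonneg u)
      linarith
    exact_mod_cast h6
  obtain ⟨k, hk⟩ := Nat.modEq_iff_dvd.mp hmod
  push_cast at hk
  have hp0 := hp.pos
  have hd0 : (0 : ℤ) < d := by exact_mod_cast (by omega : 0 < d)
  have huaZ : (u : ℤ) * a < d := by exact_mod_cast hua
  have hua0 : (0 : ℤ) ≤ (u : ℤ) * a := by positivity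
  -- `p = u a - k d`
  have hk1 : -k ≤ T := by
    by_contra h6
    push Not at h6
    have h7 : (T : ℤ) + 1 ≤ -k := by omega
    have h8 : ((T : ℤ) + 1) * d ≤ -k * d := mul_le_mul_of_nonneg_right h7 hd0.le
    have h9 : (p : ℤ) ≤ T * d := by exact_mod_cast hcon
    nlinarith
  have hk2 : 0 ≤ -k := by
    by_contra h6
    push Not at h6
    have h7 : (1 : ℤ) ≤ k := by omega
    have h8 : (1 : ℤ) * d ≤ k * d := mul_le_mul_of_nonneg_right h7 hd0.le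
    have h11 : (0 : ℤ) < p := by exact_mod_cast hp0
    nlinarith
  obtain ⟨r, a1, -, -, a4, a5⟩ := h4 (u, -k) (by
    rw [Finset.mem_image]
    refine ⟨(u, (-k).toNat), ?_, ?_⟩
    · rw [Finset.mem_product, Finset.mem_range]
      refine ⟨hu, ?_⟩
      simp only
      omega
    · simp only [Prod.mk.injEq]
      refine ⟨trivial, ?_⟩
      omega)
  simp only at a4 a5
  have e1 : (u : ℤ) * (a : ℤ) + -k * (d : ℤ) = (p : ℤ) := by linarith
  rw [e1] at a4 a5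
  rw [abs_of_nonneg (by positivity)] at a5
  have h8 : r ∣ p := by exact_mod_cast a4
  have h9 : r < p := by exact_mod_cast a5
  rcases (Nat.dvd_prime hp).mp h8 with h | h
  · exact a1.one_lt.ne' h
  · omega

theorem result :
    (∀ (C δ : ℝ) (K : ℕ), 0 < δ → ∀ᶠ d : ℕ in atTop, ∀ e : ℕ, 1 ≤ e → e ≤ d ^ K →
      ∀ S : Finset (ℕ × ℤ),
      (∀ s ∈ S, 1 ≤ s.1 ∧ s.1 ≤ d ^ K ∧ (∀ p : ℕ, p.Prime → p ∣ s.1 → p ∣ e) ∧
        |s.2| ≤ (d : ℤ) ^ K) →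
      (S.card : ℝ) ≤ C * (((d * e).totient : ℝ) / ((d * e : ℕ) : ℝ)) * Real.log d →
      ∀ y : ℕ, y ≤ d ^ K → ∃ a : ℕ, y ≤ a ∧ (a : ℝ) ≤ y + (d : ℝ) ^ δ ∧ Nat.Coprime a (d * e) ∧
        ∀ s ∈ S, ∃ p : ℕ, p.Prime ∧ ¬ p ∣ d * e ∧ (p : ℝ) ≤ (d : ℝ) ^ δ ∧
          (p : ℤ) ∣ s.1 * a + s.2 * d ∧ (p : ℤ) < |(s.1 : ℤ) * a + s.2 * d|) ∧
    ∀ (C δ : ℝ) (K : ℕ), 0 < δ → ∀ᶠ d : ℕ in atTop, ∀ e : ℕ, 1 ≤ e → e ≤ d ^ K →
      ∀ (U : Finset ℕ) (T : ℕ),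
      (∀ u ∈ U, 1 ≤ u ∧ (u : ℝ) * ((d : ℝ) ^ δ + 1) < d ∧ ∀ p : ℕ, p.Prime → p ∣ u → p ∣ e) →
      (U.card : ℝ) * (T + 1) ≤ C * (((d * e).totient : ℝ) / ((d * e : ℕ) : ℝ)) * Real.log d →
      ∃ a : ℕ, 1 ≤ a ∧ (a : ℝ) ≤ 1 + (d : ℝ) ^ δ ∧ Nat.Coprime a (d * e) ∧
        ∀ u ∈ U, ∀ p : ℕ, p.Prime → p ≡ u * a [MOD d] → T * d < p :=
  ⟨pairs, classes⟩

end Pool.Agent.Results.MP_458f0b_nt.MultiplesOfOneClass
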