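import Pool.Agent.Q48.RD.One

/-!
# Almost primes in the opposite classes `a` and `-a` modulo every `d`, near the same multiple of `d` with restricted digits

Let `1 ≤ a < d` with `a` prime to `d`. We consider the `k` for which both numbers `k d + a` and `k d - a` are almost primes.

Let `g ≥ 2` be a base and `K` a large number of digits. For every `i < K` let `A i` be an arbitrary set of digits, such that the number
`|A 0| ⋯ |A (K - 1)|` of the integers `t < g ^ K` whose `i`-th digit belongs to `A i` for all `i < K` is at least `exp (- c K) g ^ K`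
(`Rich`). Let `d ≤ g ^ (E K)`, `1 ≤ N ≤ g ^ (E K)` and the class `a` be arbitrary. So the length `g ^ K` of the interval of the
`k = N + t` with these `t` may be an arbitrarily small power of `d`.

For at least `κ V |A 0| ⋯ |A (K - 1)|` of the `k = N + t`, and at least `κ |A 0| ⋯ |A (K - 1)| / K ^ 2`, both numbers `k d ± a` have at
most `r` prime factors, all larger than `g ^ (K / r)`, unless there is an obvious obstruction (no digit `u` in `A 0` such that both
`(N + u) d ± a` are prime to `g`); and for at most `C V |A 0| ⋯ |A (K - 1)|` of them both are primes. Here `V` is the product of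
`1 - ν (p) / p` over the primes `p ≤ g ^ K`, where `ν (p)` is the number of the `k` modulo `p` such that `p` divides one of the numbers
`k d ± a` (`0` if `p` divides `d`, `1` if `p` does not divide `d` but divides `2 a`, and `2` otherwise), the expected order. The constants
do not depend on `d`, `a`, `N` and the sets `A i`.
-/

set_option autoImplicit false

namespace Pool.Agent.Results.MP_458f0b_nt.OppositeClasses

open Filter Finset
open Pool.Agent.Q315.RD Pool.Agent.Q48.RD

/-- Both numbers `k d + a` and `k d - a` have the property `Q`. -/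
def Opposite (d a : ℕ) (Q : ℕ → Prop) (k : ℕ) : Prop := Q (k * d + a) ∧ Q (k * d - a)

/-- The product of `1 - ν (p) / p` over the primes `p ≤ y`, `ν (p)` the number of the zeros modulo `p` of `(d X + a) (d X - a)`. -/
noncomputable def V (d a y : ℕ) : ℝ := linDensity (fun _ : Fin 2 => (d : ℤ)) ![(a : ℤ), -(a : ℤ)] y

lemma adm {d a : ℕ} (h : a.Coprime d) : AdmZ (fun _ : Fin 2 => (d : ℤ)) ![(a : ℤ), -(a : ℤ)] := by
  intro p hp
  have hnot : p ∣ a → ¬ p ∣ d := fun h1 h2 => hp.one_lt.ne' (Nat.dvd_one.1 (h ▸ Nat.dvd_gcd h1 h2))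
  by_cases hpd : p ∣ d
  · refine ⟨0, fun j hj => ?_⟩
    have hpa : ¬ p ∣ a := fun h1 => hnot h1 hpd
    apply hpa
    fin_cases j
    · have h1 : (p : ℤ) ∣ (d : ℤ) * 0 + a := hj
      rw [mul_zero, zero_add] at h1
      exact Int.natCast_dvd_natCast.1 h1
    · have h1 : (p : ℤ) ∣ (d : ℤ) * 0 + -a := hj
      rw [mul_zero, zero_add, dvd_neg] at h1
      exact Int.natCast_dvd_natCast.1 h1
  · rcases Nat.lt_or_ge 2 p with h3 | h3
    · refine adm_bigZ _ _ hp h3 fun j h1 => hpd (Int.natCast_dvd_natCast.1 h1)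
    · have h4 : p = 2 := by have := hp.two_le; omega
      subst h4
      have hodd : d % 2 = 1 := by omega
      obtain ⟨w, hw⟩ : ∃ w, d = 2 * w + 1 := ⟨d / 2, by omega⟩
      refine ⟨a + 1, fun j hj => ?_⟩
      fin_cases j
      · have h1 : ((2 : ℕ) : ℤ) ∣ (d : ℤ) * (a + 1) + a := hj
        have h5 : (d : ℤ) * (a + 1) + a = 2 * (w * (a + 1) + a) + 1 := by rw [hw]; push_cast; ring
        rw [h5] at h1
        push_cast at h1
        omega
      · have h1 : ((2 : ℕ) : ℤ) ∣ (d : ℤ) * (a + 1) + -a := hj
        have h5 : (d : ℤ) * (a + 1) + -a = 2 * (w * (a + 1)) + 1 := by rw [hw]; push_cast; ring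
        rw [h5] at h1
        push_cast at h1
        omega

/-- **Almost primes in the opposite classes `a` and `-a` modulo every `d`, near the same multiple of `d` with restricted digits.** -/
theorem result (E : ℕ) :
    ∃ c : ℝ, 0 < c ∧ ∃ r₀ : ℕ, 2 ≤ r₀ ∧ ∀ r : ℕ, r₀ ≤ r → ∀ g : ℕ, 2 ≤ g → ∃ κ C : ℝ, 0 < κ ∧ 0 < C ∧
      ∀ᶠ K : ℕ in atTop, ∀ d a N : ℕ, d ≤ g ^ (E * K) → 1 ≤ a → a < d → a.Coprime d → 1 ≤ N → N ≤ g ^ (E * K) →
        ∀ A : ℕ → Finset ℕ, Rich c g K A →
          ((∃ u ∈ A 0, Opposite d a (fun n => n.Coprime g) (N + u)) →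
            κ * V d a (g ^ K) * choices K A ≤ count g K A (fun t => Opposite d a (AlmostPrime (g ^ K) r) (N + t)) ∧
            κ * choices K A / (K : ℝ) ^ 2 ≤ count g K A (fun t => Opposite d a (AlmostPrime (g ^ K) r) (N + t))) ∧
          (count g K A (fun t => Opposite d a Nat.Prime (N + t)) : ℝ) ≤ C * V d a (g ^ K) * choices K A := by
  obtain ⟨c, hc, r₀, hr₀, h1⟩ := famLin' 2 E
  refine ⟨c, hc, r₀, hr₀, fun r hr g hg => ?_⟩
  obtain ⟨κ, C, hκ, hC, h2⟩ := h1 r hr g hg
  refine ⟨κ, C, hκ, hC, ?_⟩
  filter_upwards [h2] with K hK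
  intro d a N hd ha1 ha hco hN1 hN A hA
  have hle : ∀ t, a + t ≤ (N + t) * d := by
    intro t
    have h3 : N * d + t * d = (N + t) * d := by ring
    have h4 : d ≤ N * d := Nat.le_mul_of_pos_left d (by omega)
    have h5 : t ≤ t * d := Nat.le_mul_of_pos_right t (by omega)
    omega
  have h3 := hK (fun _ => (d : ℤ)) ![(a : ℤ), -(a : ℤ)] N (fun j t => ![(N + t) * d + a, (N + t) * d - a] j)
    (fun j => by
      rw [abs_of_nonneg (by positivity)]
      exact_mod_cast hd)
    (fun j => by
      have h4 : |(a : ℤ)| ≤ (g : ℤ) ^ (E * K) := by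
        rw [abs_of_nonneg (by positivity)]
        exact_mod_cast ha.le.trans hd
      fin_cases j
      · exact h4
      · change |-(a : ℤ)| ≤ _
        rwa [abs_neg])
    hN (adm hco)
    (fun t _ j => by
      fin_cases j
      · change (((N + t) * d + a : ℕ) : ℤ) = (d : ℤ) * ((N : ℤ) + t) + (a : ℤ)
        push_cast; ring
      · change (((N + t) * d - a : ℕ) : ℤ) = (d : ℤ) * ((N : ℤ) + t) + -(a : ℤ)
        have := hle t
        rw [Nat.cast_sub (by omega)]
        push_cast; ring)
    (fun t _ j => by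
      have := hle t
      fin_cases j
      · change t ≤ (N + t) * d + a
        omega
      · change t ≤ (N + t) * d - a
        omega) A hA
  simp only [Fin.forall_fin_two, Matrix.cons_val_zero, Matrix.cons_val_one, Matrix.cons_val_fin_one] at h3
  exact h3

end Pool.Agent.Results.MP_458f0b_nt.OppositeClasses
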