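import Pool.Agent.Q46.SL.Tools
import Pool.Agent.Q46.SL.Config

/-!
# Almost primes `η x + ω` in all progressions, at all the distances of configurations of points

The problem is on the least primes `η x + ω` in the residue classes `ω` modulo `η`. For all `η`, `ω` of absolute value at most
`p ^ B` we find many configurations of points for which ALL distances `x` make `η x + ω` an almost prime; with `p` about `η ^ δ`
and `B ≥ 1 / δ` this gives almost primes below `η ^ (1 + δ)` in all residue classes `ω` prime to `η`.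

Let `p` be a large prime and let `V_1, ..., V_k` be ARBITRARY sets of vectors with `d` coordinates in the field with `p` elements,
`|V_i| |V_j| ≥ p ^ (d + ε)`. Many configurations `(X_1, ..., X_k)` in `V_1 × ... × V_k` are such that the least residues of ALL the
`k (k - 1) / 2` distances `∑ (X_i - X_j)²` have the property. Here the property is: `η x + ω` has at most `R` prime factors, all larger than `p ^ κ`.

In addition the numbers avoid arbitrary residue classes, at most `m` classes `E q` modulo each prime `q ≤ z`, as long as there is no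
local obstruction; `m = 0` is the case without classes. The exponent `κ`, the number `R` and the constant `cc` do not depend on the
classes.

Design and proof: helper46 (modules `Pool.Agent.Q46.SV.*`, `Pool.Agent.Q46.SL.*`): the vectors of the residues in question are
equidistributed modulo all small integers with a power saving, by bounds for exponential sums; the fundamental lemma of the
sieve is applied to the vectors.
-/

set_option autoImplicit false

namespace Pool.Agent.Results.MP_458f0b_nt.PointConfigurations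

open Finset Polynomial
open Pool.Agent.Q46.SL hiding Almost

/-- `n` is not zero and has at most `R` prime factors (counted with multiplicity), all larger than `z` -/
def Almost (z : ℝ) (R : ℕ) (n : ℤ) : Prop :=
  n ≠ 0 ∧ n.natAbs.primeFactorsList.length ≤ R ∧ ∀ q : ℕ, q.Prime → (q : ℤ) ∣ n → z < q

/-- `x` is positive, `η x + ω` has at most `R` prime factors, all larger than `z`, and `x` avoids the classes `E q`, `q ≤ z` -/
def Good (η ω : ℤ) (z : ℝ) (R : ℕ) (E : ℕ → Finset ℕ) (x : ℤ) : Prop :=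
  0 < x ∧ Almost z R (η * x + ω) ∧ ∀ q : ℕ, q.Prime → (q : ℝ) ≤ z → (x % q).toNat ∉ E q

/-- `E q` has at most `m` elements, and some residue `a` outside `E q` makes the number `η * x + ω` (`a` in the place of `x`) not divisible by `q` -/
def Adm (η ω : ℤ) (m : ℕ) (E : ℕ → Finset ℕ) : Prop :=
  ∀ q : ℕ, q.Prime → (E q).card ≤ m ∧ ∃ a < q, a ∉ E q ∧ ¬ (q : ℤ) ∣ η * a + ω

/-- the polynomials and the classes -/
noncomputable def sysE (η ω : ℤ) (m : ℕ) (E : ℕ → Finset ℕ) (hE : Adm η ω m E) : PE 1 m 1 where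
  f := ![C η * X + C ω]
  E := E
  deg := by
    rw [Fin.sum_univ_one]
    simp only [Matrix.cons_val]
    have d0 : (C η * X + C ω : ℤ[X]).natDegree ≤ 1 := by compute_degree
    omega
  adm := by
    intro q hq
    obtain ⟨h1, a, ha, haE, h2⟩ := hE q hq
    refine ⟨h1, a, ha, haE, fun j => ?_⟩
    fin_cases j
    · simpa using h2

lemma good_of {η ω : ℤ} {m B : ℕ} {E : ℕ → Finset ℕ} (hE : Adm η ω m E) {κ M : ℝ} (hM : (2 : ℝ) ≤ M)
    (hh : |(η : ℝ)| ≤ M ^ B ∧ |(ω : ℝ)| ≤ M ^ B) {x : ℤ} (h : Near (B + 1) (sysE η ω m E hE) κ M x) (hx : (x : ℝ) ≤ M) :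
    Good η ω (M ^ κ) ⌊((B + 1 : ℕ) + (1 : ℕ) + 1 : ℝ) / κ⌋₊ E x := by
  obtain ⟨h0, h12⟩ := h
  obtain ⟨h1, h2⟩ := h12 (by
    intro j
    have hB : (1 : ℝ) ≤ M ^ B := one_le_pow₀ (by linarith)
    have hBM : (2 : ℝ) * M ^ B ≤ M ^ (B + 1) := by
      rw [pow_succ]
      nlinarith
    obtain ⟨k0, k1⟩ := hh
    fin_cases j
    · refine cb_mono (cb_add (cb_CX η) (cb_C ω)) ?_
      push_cast
      norm_num
      linarith) hx
  refine ⟨h0, ?_, h2⟩
  · simpa [sysE, Almost, Pool.Agent.Q46.SL.Almost] using h1 0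

/-- the pairs `i < j` of indices -/
abbrev Pairs (k : ℕ) : Type := {z : Fin k × Fin k // z.1 < z.2}

/-- the distance of two vectors, an element of the field with `p` elements -/
def dist {p d : ℕ} (x y : Fin d → ZMod p) : ZMod p := ∑ l, (x l - y l) ^ 2

open Classical in
/-- the number of `X` in `V_1 × ... × V_k` such that for all `i < j` the least residue `y` of the distance of `X_i` and
`X_j` satisfies `u i j ≤ y < u i j + N i j` and has the property `P` -/
noncomputable def hits {p k d : ℕ} (V : Fin k → Finset (Fin d → ZMod p)) (u N : Pairs k → ℕ) (P : ℤ → Prop) : ℕ :=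
  ((Fintype.piFinset V).filter (fun X => ∀ z : Pairs k,
    (u z ≤ (dist (X z.1.1) (X z.1.2)).val ∧ (dist (X z.1.1) (X z.1.2)).val < u z + N z) ∧
      P (dist (X z.1.1) (X z.1.2)).val)).card

/-- `η x + ω` is almost prime for ALL the distances `x` of many configurations of points. -/
theorem result (B m : ℕ) (k : ℕ) (hk : 2 ≤ k) (ε : ℝ) (hε : 0 < ε) (hε1 : ε ≤ 1) :
    ∃ κ : ℝ, 0 < κ ∧ ∃ cc : ℝ, 0 < cc ∧ ∃ R p₀ : ℕ, ∀ p : ℕ, p₀ ≤ p → p.Prime → ∀ η ω : ℤ, |(η : ℝ)| ≤ (p : ℝ) ^ B → |(ω : ℝ)| ≤ (p : ℝ) ^ B → ∀ E : ℕ → Finset ℕ, Adm η ω m E → ∀ (d : ℕ) (V : Fin k → Finset (Fin d → ZMod p)) (u N : Pairs k → ℕ),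
      (∀ z, u z + N z ≤ p) → (∀ z, (p : ℝ) ^ ε ≤ N z) →
      (∀ z : Pairs k, (p : ℝ) ^ (d + ε) ≤ (∏ w : Pairs k, (N w : ℝ) / p) ^ 2 * (V z.1.1).card * (V z.1.2).card) →
      cc * ((∏ w : Pairs k, (N w : ℝ) / p) * (∏ i, ((V i).card : ℝ))) /
        Real.log p ^ (Fintype.card (Pairs k) * (m + 1)) ≤ hits V u N (Good η ω ((p : ℝ) ^ κ) R E) := by
  classical
  obtain ⟨κ, hκ, cc, hcc, p₀, h⟩ := Pool.Agent.Q46.SL.configs (Near (B + 1) : PE 1 m 1 → ℝ → ℝ → ℤ → Prop)
    (lg (m + 1)) (fun r _ => csN 1 m 1 (B + 1) r) k hk ε hε hε1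
  refine ⟨κ, hκ, cc, hcc, ⌊((B + 1 : ℕ) + (1 : ℕ) + 1 : ℝ) / κ⌋₊, max 2 p₀, ?_⟩
  intro p hp hpp η ω t0 t1 E hE d V u N hu hN hV
  have hpr : (2 : ℝ) ≤ p := by exact_mod_cast (le_max_left _ _).trans hp
  have : Fact p.Prime := ⟨hpp⟩
  have key := h p ((le_max_right _ _).trans hp) (sysE η ω m E hE) hpp d V u N hu hN hV
  refine le_trans (cnt le_rfl (mul_nonneg (prod_nonneg fun _ _ => div_nonneg (Nat.cast_nonneg _) (Nat.cast_nonneg _))
    (prod_nonneg fun _ _ => Nat.cast_nonneg _)) (log0 p) _ _) (key.trans ?_)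
  unfold hits Pool.Agent.Q46.SL.conf
  refine Nat.cast_le.2 ?_
  apply card_le_card
  intro X hX
  rw [mem_filter] at hX ⊢
  exact ⟨hX.1, fun z => ⟨(hX.2 z).1, good_of hE hpr ⟨t0, t1⟩ (hX.2 z).2 (by exact_mod_cast (ZMod.val_lt _).le)⟩⟩

end Pool.Agent.Results.MP_458f0b_nt.PointConfigurations
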